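import Pool.Agent.Helper74.UB.Goals5

/-!
# UB-CNT: numbers of vertices, edges, squares
-/

namespace Pool.Agent.Helper97.UB

open Finset Equiv Helper28.VF Pool.Agent.Helper74.UB
open scoped Classical

section
variable {K h : ℕ} {V D E F : Type} [Fintype V] [Fintype D] [Fintype E] [Fintype F]
  {L : Lay V} {f : ℤ → ZMod (3 * 2 ^ K) → V} {M : PM D V E F}
  {dE dW : V → D} {dU dN : V → V → D}

instance neZ (K : ℕ) : NeZero (3 * 2 ^ K) := ⟨by positivity⟩

/-- The flat vertices. -/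
noncomputable def flatV (L : Lay V) (h : ℕ) : Finset V :=
  univ.filter fun v => 0 ≤ L.row v ∧ L.row v ≤ h

/-- The caps. -/
noncomputable def capV (L : Lay V) (h : ℕ) : Finset V :=
  univ.filter fun v => L.row v < 0 ∨ (h : ℤ) < L.row v

lemma flat_eq (H : Host K h L f) :
    flatV L h = (univ : Finset (Fin (h + 1) × ZMod (3 * 2 ^ K))).image
      fun p => f ((p.1 : ℕ) : ℤ) p.2 := by
  ext v
  simp only [flatV, mem_filter, mem_univ, true_and, mem_image, Prod.exists]
  constructor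
  · rintro ⟨h0, h1⟩
    obtain ⟨i, hi⟩ := H.flat.surj v h0 h1
    refine ⟨⟨(L.row v).toNat, by omega⟩, i, ?_⟩
    have : (((L.row v).toNat : ℕ) : ℤ) = L.row v := Int.toNat_of_nonneg h0
    simp only [this]
    exact hi
  · rintro ⟨r, i, rfl⟩
    have h1 := r.2
    rw [H.flat.row _ _ (by positivity) (by omega)]
    constructor
    · positivity
    · omega

lemma f_inj (H : Host K h L f) :
    Function.Injective fun p : Fin (h + 1) × ZMod (3 * 2 ^ K) => f ((p.1 : ℕ) : ℤ) p.2 := by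
  rintro ⟨r, i⟩ ⟨s, j⟩ hp
  have hp' : f ((r : ℕ) : ℤ) i = f ((s : ℕ) : ℤ) j := hp
  have hr := r.2
  have hs := s.2
  have h1 := H.flat.row (r : ℕ) i (by positivity) (by omega)
  have h2 := H.flat.row (s : ℕ) j (by positivity) (by omega)
  have h3 : ((r : ℕ) : ℤ) = ((s : ℕ) : ℤ) := by rw [← h1, ← h2, hp']
  have h4 : r = s := by
    apply Fin.ext
    exact_mod_cast h3
  subst h4
  have h5 := H.flat.inj _ i j (by positivity) (by omega) hp'
  rw [h5]

lemma row_succ (H : Host K h L f) (r : ℕ) (i : ZMod (3 * 2 ^ K)) (hr : r + 1 ≤ h) :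
    L.row (f ((r : ℤ) + 1) i) = (r : ℤ) + 1 := by
  have h1 := H.flat.row (r + 1) i (by positivity) hr
  push_cast at h1
  exact h1

lemma inj_succ (H : Host K h L f) (r : ℕ) (i j : ZMod (3 * 2 ^ K)) (hr : r + 1 ≤ h)
    (h0 : f ((r : ℤ) + 1) i = f ((r : ℤ) + 1) j) : i = j := by
  apply H.flat.inj (r + 1) i j (by positivity) hr
  push_cast
  exact h0

lemma e_succ (H : Host K h L f) (r : ℕ) (i : ZMod (3 * 2 ^ K)) (hr : r + 1 ≤ h) :
    L.e (f ((r : ℤ) + 1) i) = f ((r : ℤ) + 1) (i + 1) := by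
  have h1 := H.flat.e (r + 1) i (by positivity) hr
  push_cast at h1
  exact h1

lemma card_flat (H : Host K h L f) : (flatV L h).card = 3 * 2 ^ K * (h + 1) := by
  rw [flat_eq H, card_image_of_injective _ (f_inj H), card_univ, Fintype.card_prod,
    Fintype.card_fin, ZMod.card]
  ring

lemma card_V (L : Lay V) (h : ℕ) : Fintype.card V = (flatV L h).card + (capV L h).card := by
  have : capV L h = univ.filter fun v => ¬ (0 ≤ L.row v ∧ L.row v ≤ h) := by
    unfold capV
    congr 1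
    funext v
    apply propext
    constructor
    · intro h1; omega
    · intro h1; omega
  rw [this, flatV, card_filter_add_card_filter_not, card_univ]

lemma sum_par (m : ℕ) :
    ∑ r ∈ range (2 * m + 2), (if Even r then 1 else 2) = 3 * (m + 1) := by
  induction m with
  | zero => simp [sum_range_succ]
  | succ m ih =>
    have h1 : 2 * (m + 1) + 2 = (2 * m + 2) + 1 + 1 := by ring
    rw [h1, sum_range_succ, sum_range_succ, ih]
    have h2 : Even (2 * m + 2) := ⟨m + 1, by ring⟩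
    have h3 : ¬ Even (2 * m + 2 + 1) := by
      rw [Nat.not_even_iff_odd]; exact ⟨m + 1, by ring⟩
    rw [if_pos h2, if_neg h3]
    ring

lemma up_le (H : Host K h L f) (r : ℕ) (i : ZMod (3 * 2 ^ K)) (hr : r ≤ h) :
    (univ.filter fun k => L.up (f (r : ℤ) i) k).card ≤ if Even r then 1 else 2 := by
  have hodd := H.hodd
  rcases lt_or_eq_of_le hr with hlt | heq
  · split_ifs with he
    · have : (univ.filter fun k => L.up (f (r : ℤ) i) k) = {f ((r : ℤ) + 1) i} := by
        ext k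
        simp only [mem_filter, mem_univ, true_and, mem_singleton]
        exact H.flat.upS r i k (by positivity) (by exact_mod_cast hlt) (by exact_mod_cast he)
      rw [this, card_singleton]
    · have : (univ.filter fun k => L.up (f (r : ℤ) i) k) ⊆
          {f ((r : ℤ) + 1) i, f ((r : ℤ) + 1) (i + 1)} := by
        intro k hk
        simp only [mem_filter, mem_univ, true_and] at hk
        simp only [mem_insert, mem_singleton]
        exact (H.flat.upT r i k (by positivity) (by exact_mod_cast hlt)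
          (by exact_mod_cast he)).1 hk
      exact (card_le_card this).trans (card_le_two)
  · subst heq
    rw [if_neg (Nat.not_even_iff_odd.2 hodd)]
    apply H.up2
    rw [H.flat.row _ _ (by positivity) le_rfl]

lemma card_up (H : Host K h L f) : 2 * (univ.filter fun p : V × V => L.up p.1 p.2).card ≤
      3 * (3 * 2 ^ K * (h + 1)) + 12 * (3 * 2 ^ K) := by
  have h1 : (univ.filter fun p : V × V => L.up p.1 p.2).card =
      ∑ v : V, (univ.filter fun k => L.up v k).card := by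
    rw [card_filter, ← univ_product_univ, sum_product]
    apply sum_congr rfl
    intro v _
    rw [card_filter]
  have h2 : ∑ v : V, (univ.filter fun k => L.up v k).card =
      ∑ v ∈ flatV L h, (univ.filter fun k => L.up v k).card +
      ∑ v ∈ capV L h, (univ.filter fun k => L.up v k).card := by
    have : capV L h = univ.filter fun v => ¬ (0 ≤ L.row v ∧ L.row v ≤ h) := by
      unfold capV
      congr 1
      funext v
      apply propext
      constructor
      · intro h1; omega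
      · intro h1; omega
    rw [this, flatV, sum_filter_add_sum_filter_not]
  have h3 : ∑ v ∈ capV L h, (univ.filter fun k => L.up v k).card ≤ 3 * (2 * (3 * 2 ^ K)) := by
    calc ∑ v ∈ capV L h, (univ.filter fun k => L.up v k).card
        ≤ ∑ v ∈ capV L h, 3 := sum_le_sum fun v _ => H.up3 v
      _ = (capV L h).card * 3 := by rw [sum_const, smul_eq_mul]
      _ ≤ (2 * (3 * 2 ^ K)) * 3 := Nat.mul_le_mul_right _ H.cap
      _ = 3 * (2 * (3 * 2 ^ K)) := by ring
  have h4 : 2 * ∑ v ∈ flatV L h, (univ.filter fun k => L.up v k).card ≤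
      3 * (3 * 2 ^ K * (h + 1)) := by
    rw [flat_eq H, sum_image (fun _ _ _ _ h => f_inj H h), ← univ_product_univ, sum_product]
    have h5 : ∑ x : Fin (h + 1), ∑ y : ZMod (3 * 2 ^ K),
        (univ.filter fun k => L.up (f ((x : ℕ) : ℤ) y) k).card ≤
        ∑ x : Fin (h + 1), (3 * 2 ^ K) * (if Even (x : ℕ) then 1 else 2) := by
      apply sum_le_sum
      intro x _
      calc ∑ y : ZMod (3 * 2 ^ K), (univ.filter fun k => L.up (f ((x : ℕ) : ℤ) y) k).card
          ≤ ∑ y : ZMod (3 * 2 ^ K), (if Even (x : ℕ) then 1 else 2) :=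
            sum_le_sum fun y _ => up_le H x y (by omega)
        _ = (3 * 2 ^ K) * (if Even (x : ℕ) then 1 else 2) := by
            rw [sum_const, card_univ, ZMod.card, smul_eq_mul]
    obtain ⟨m, hm⟩ := H.hodd
    have h6 : ∑ x : Fin (h + 1), (3 * 2 ^ K) * (if Even (x : ℕ) then 1 else 2) =
        (3 * 2 ^ K) * (3 * (m + 1)) := by
      rw [← mul_sum, Fin.sum_univ_eq_sum_range (fun n => if Even n then 1 else 2) (h + 1)]
      have : h + 1 = 2 * m + 2 := by omega
      rw [this, sum_par]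
    calc 2 * ∑ x : Fin (h + 1), ∑ y : ZMod (3 * 2 ^ K),
        (univ.filter fun k => L.up (f ((x : ℕ) : ℤ) y) k).card
        ≤ 2 * ((3 * 2 ^ K) * (3 * (m + 1))) := by
          apply Nat.mul_le_mul_left
          rw [← h6]; exact h5
      _ = 3 * (3 * 2 ^ K * (h + 1)) := by rw [hm]; ring
  rw [h1, h2]
  omega

/-! ## Squares -/

lemma dE_ne_dW (H : Host K h L f) (hM : LM L M dE dW dU dN) (v w : V) : dE v ≠ dW w := by
  intro h1
  have h2 := congrArg M.vt h1
  rw [hM.vE, hM.vW] at h2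
  have h3 := congrArg M.α h1
  rw [hM.aE, ← hM.aE w, M.α_inv] at h3
  have h4 := congrArg M.vt h3
  rw [hM.vE, hM.vW] at h4
  rw [h2] at h4
  exact H.ax.e2 w h4

lemma dE_ne_dU (H : Host K h L f) (hM : LM L M dE dW dU dN) (v u k : V) (hu : L.up u k) :
    dE v ≠ dU u k := by
  intro h1
  have h2 := congrArg M.vt h1
  rw [hM.vE, hM.vU _ _ hu] at h2
  have h3 := congrArg M.α h1
  rw [hM.aE, hM.aU _ _ hu] at h3
  have h4 := congrArg M.vt h3
  rw [hM.vW, hM.vN _ _ hu] at h4
  have h5 := H.ax.up_row _ _ hu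
  have h6 := H.ax.row_e v
  rw [h4, h5, h2] at h6
  omega

lemma dE_ne_dN (H : Host K h L f) (hM : LM L M dE dW dU dN) (v u k : V) (hu : L.up u k) :
    dE v ≠ dN u k := by
  intro h1
  have h2 := congrArg M.vt h1
  rw [hM.vE, hM.vN _ _ hu] at h2
  have h3 := congrArg M.α h1
  rw [hM.aE, ← hM.aU _ _ hu, M.α_inv] at h3
  have h4 := congrArg M.vt h3
  rw [hM.vW, hM.vU _ _ hu] at h4
  have h5 := H.ax.up_row _ _ hu
  have h6 := H.ax.row_e v
  rw [h4, h2, h5] at h6
  omega

lemma dE_inj (hM : LM L M dE dW dU dN) {v w : V} (h1 : dE v = dE w) : v = w := by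
  have h2 := congrArg M.vt h1
  rwa [hM.vE, hM.vE] at h2

/-- The strip is unique. -/
lemma strip_uniq {row : V → ℤ} {d : D} {y z : ℤ} (h1 : InStrip M row d y)
    (h2 : InStrip M row d z) : y = z := by
  obtain ⟨a1, ⟨e, e1, e2⟩, ⟨g, g1, g2⟩⟩ := h1
  obtain ⟨b1, ⟨e', e1', e2'⟩, ⟨g', g1', g2'⟩⟩ := h2
  have c1 := b1 e e1
  have c2 := b1 g g1
  have c3 := a1 e' e1'
  have c4 := a1 g' g1'
  omega

lemma strip_fc {row : V → ℤ} {d e : D} {y : ℤ} (h0 : M.fc e = M.fc d) (h1 : InStrip M row d y) :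
    InStrip M row e y := by
  obtain ⟨a1, ⟨e, e1, e2⟩, ⟨g, g1, g2⟩⟩ := h1
  refine ⟨fun x hx => a1 x (by rw [hx, h0]), ⟨e, by rw [e1, h0], e2⟩, ⟨g, by rw [g1, h0], g2⟩⟩

/-- The index set of the squares. -/
abbrev Ix (K m : ℕ) : Type := Fin (m + 1) × ZMod (3 * 2 ^ K)

/-- The dart `dE` of a square. -/
def sqd (f : ℤ → ZMod (3 * 2 ^ K) → V) (dE : V → D) {m : ℕ} (p : Ix K m) : D :=
  dE (f ((2 * (p.1 : ℕ) : ℕ) : ℤ) p.2)

lemma sq_inj (hSq : StmtSq) (H : Host K h L f) (hM : LM L M dE dW dU dN) {m : ℕ}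
    (hm : h = 2 * m + 1) (p q : Ix K m) (hpq : M.fc (sqd f dE p) = M.fc (sqd f dE q)) :
    p = q := by
  obtain ⟨s, i⟩ := p
  obtain ⟨t, j⟩ := q
  have hs := s.2
  have ht := t.2
  have hE : Even (((2 * (t : ℕ) : ℕ)) : ℤ) := by
    exact_mod_cast (even_two_mul (t : ℕ))
  obtain ⟨-, h1⟩ := hSq K h V D E F L f M dE dW dU dN H hM ((2 * (t : ℕ) : ℕ) : ℤ) j
    (by positivity) (by omega) hE
  have h2 := (h1 (sqd f dE (s, i))).1 hpq
  have upv : ∀ x, L.up (f ((2 * (t : ℕ) : ℕ) : ℤ) x) (f (((2 * (t : ℕ) : ℕ) : ℤ) + 1) x) :=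
    fun x => (H.flat.upS _ x _ (by positivity) (by omega) (even_two_mul _)).2 rfl
  rcases h2 with h2 | h2 | h2 | h2
  · have h3 := dE_inj hM h2
    simp only at h3
    have h4 := H.flat.row (2 * (s : ℕ) : ℕ) i (by positivity) (by omega)
    have h5 := H.flat.row (2 * (t : ℕ) : ℕ) j (by positivity) (by omega)
    rw [h3, h5] at h4
    have h6 : s = t := by
      apply Fin.ext
      omega
    subst h6
    have h7 := H.flat.inj _ i j (by positivity) (by omega) h3
    rw [h7]
  · exact absurd h2 (dE_ne_dU H hM _ _ _ (upv _))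
  · exact absurd h2 (dE_ne_dW H hM _ _)
  · exact absurd h2 (dE_ne_dN H hM _ _ _ (upv _))

lemma sq_surj (hSt : StmtStrip) (hSq : StmtSq) (H : Host K h L f) (hM : LM L M dE dW dU dN)
    {m : ℕ} (hm : h = 2 * m + 1) (d : D) (hd : T4 M d) :
    ∃ p : Ix K m, M.fc d = M.fc (sqd f dE p) := by
  obtain ⟨s1, s2, s3, -, -, s6⟩ := hSt K h V D E F L f M dE dW dU dN H hM
  obtain ⟨y, y0, yh, ye, hy⟩ := (s6 d).1 hd
  obtain ⟨t, rfl⟩ : ∃ t : ℕ, y = ((2 * t : ℕ) : ℤ) := by
    obtain ⟨a, ha⟩ := ye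
    refine ⟨a.toNat, ?_⟩
    push_cast
    rw [Int.toNat_of_nonneg (by omega)]
    omega
  have htm : t < m + 1 := by omega
  have hK := H.K1
  have hr0 := H.r0
  have hr1 := H.r1
  -- it is enough to find the position
  have key : ∀ i : ZMod (3 * 2 ^ K), (d = dE (f ((2 * t : ℕ) : ℤ) i) ∨
      d = dU (f ((2 * t : ℕ) : ℤ) (i + 1)) (f (((2 * t : ℕ) : ℤ) + 1) (i + 1)) ∨
      d = dW (f (((2 * t : ℕ) : ℤ) + 1) i) ∨
      d = dN (f ((2 * t : ℕ) : ℤ) i) (f (((2 * t : ℕ) : ℤ) + 1) i)) →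
      ∃ p : Ix K m, M.fc d = M.fc (sqd f dE p) := by
    intro i hi
    refine ⟨(⟨t, htm⟩, i), ?_⟩
    obtain ⟨-, h1⟩ := hSq K h V D E F L f M dE dW dU dN H hM ((2 * t : ℕ) : ℤ) i
      (by positivity) (by omega) ye
    exact (h1 d).2 hi
  rcases hM.cov d with ⟨v, hv⟩ | ⟨v, hv⟩ | ⟨v, k, hu, hv⟩ | ⟨v, k, hu, hv⟩
  · subst hv
    by_cases hrow : L.row v < L.r1
    · have h1 := strip_uniq hy (s1 v hrow)
      obtain ⟨i, hi⟩ := H.flat.surj v (by omega) (by omega)
      apply key i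
      left
      rw [h1, hi]
    · have h1 := (H.ax.bnd v).2
      have h2 := hy.1 (dE v) rfl
      rw [hM.vE] at h2
      omega
  · subst hv
    by_cases hrow : L.r0 < L.row v
    · have h1 := strip_uniq hy (s2 v hrow)
      obtain ⟨i, hi⟩ := H.flat.surj v (by omega) (by omega)
      apply key i
      right; right; left
      have h3 : ((2 * t : ℕ) : ℤ) + 1 = L.row v := by omega
      rw [h3, hi]
    · have h1 := (H.ax.bnd v).1
      have h2 := hy.1 (dW v) rfl
      rw [hM.vW, H.ax.row_e] at h2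
      omega
  · have h1 := strip_uniq hy (by rw [hv]; exact (s3 v k hu).1)
    obtain ⟨i, hi⟩ := H.flat.surj v (by omega) (by omega)
    rw [← h1] at hi
    have h2 : k = f (((2 * t : ℕ) : ℤ) + 1) i := by
      have h3 := (H.flat.upS (2 * t : ℕ) i k (by positivity) (by omega) (even_two_mul _)).1
      apply h3
      rw [hi]; exact hu
    apply key (i - 1)
    right; left
    rw [sub_add_cancel, hi, ← h2, hv]
  · have h1 := strip_uniq hy (by rw [hv]; exact (s3 v k hu).2)
    obtain ⟨i, hi⟩ := H.flat.surj v (by omega) (by omega)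
    rw [← h1] at hi
    have h2 : k = f (((2 * t : ℕ) : ℤ) + 1) i := by
      have h3 := (H.flat.upS (2 * t : ℕ) i k (by positivity) (by omega) (even_two_mul _)).1
      apply h3
      rw [hi]; exact hu
    apply key i
    right; right; right
    rw [hi, ← h2, hv]

lemma sqd_T4 (hSq : StmtSq) (H : Host K h L f) (hM : LM L M dE dW dU dN)
    {m : ℕ} (hm : h = 2 * m + 1) (p : Ix K m) : T4 M (sqd f dE p) := by
  have ht := p.1.2
  exact (hSq K h V D E F L f M dE dW dU dN H hM ((2 * (p.1 : ℕ) : ℕ) : ℤ) p.2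
    (by positivity) (by omega) (by exact_mod_cast (even_two_mul (p.1 : ℕ)))).1

lemma T4_fc (hSt : StmtStrip) (H : Host K h L f) (hM : LM L M dE dW dU dN) {d e : D}
    (h0 : M.fc e = M.fc d) (hd : T4 M d) : T4 M e := by
  obtain ⟨-, -, -, -, -, s6⟩ := hSt K h V D E F L f M dE dW dU dN H hM
  obtain ⟨y, y0, yh, ye, hy⟩ := (s6 d).1 hd
  exact (s6 e).2 ⟨y, y0, yh, ye, strip_fc h0 hy⟩

lemma card_sq (hSt : StmtStrip) (hSq : StmtSq) (H : Host K h L f) (hM : LM L M dE dW dU dN) :
    2 * Fintype.card {q : F // IsSq M q} = 3 * 2 ^ K * (h + 1) := by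
  obtain ⟨m, hm⟩ := H.hodd
  have h1 : Function.Bijective fun p : Ix K m =>
      (⟨M.fc (sqd f dE p), sqd f dE p, rfl, sqd_T4 hSq H hM hm p⟩ : {q : F // IsSq M q}) := by
    constructor
    · intro p q hpq
      exact sq_inj hSq H hM hm p q (Subtype.ext_iff.1 hpq)
    · rintro ⟨q, d, hd, hT⟩
      obtain ⟨p, hp⟩ := sq_surj hSt hSq H hM hm d hT
      refine ⟨p, ?_⟩
      apply Subtype.ext
      change M.fc (sqd f dE p) = q
      rw [← hp, hd]
  have h2 := Fintype.card_of_bijective h1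
  rw [← h2, Fintype.card_prod, Fintype.card_fin, ZMod.card, hm]
  ring

lemma card_face (hSq : StmtSq) (H : Host K h L f) (hM : LM L M dE dW dU dN) {m : ℕ}
    (hm : h = 2 * m + 1) (p : Ix K m) :
    (univ.filter fun x => M.fc x = M.fc (sqd f dE p)).card = 4 := by
  obtain ⟨t, i⟩ := p
  have ht := t.2
  have hE : Even (((2 * (t : ℕ) : ℕ)) : ℤ) := by
    exact_mod_cast (even_two_mul (t : ℕ))
  obtain ⟨-, h1⟩ := hSq K h V D E F L f M dE dW dU dN H hM ((2 * (t : ℕ) : ℕ) : ℤ) i
    (by positivity) (by omega) hE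
  have upv : ∀ x, L.up (f ((2 * (t : ℕ) : ℕ) : ℤ) x) (f (((2 * (t : ℕ) : ℕ) : ℤ) + 1) x) :=
    fun x => (H.flat.upS _ x _ (by positivity) (by omega) (even_two_mul _)).2 rfl
  have h2 : (univ.filter fun x => M.fc x = M.fc (sqd f dE (t, i))) =
      {dE (f ((2 * (t : ℕ) : ℕ) : ℤ) i),
        dU (f ((2 * (t : ℕ) : ℕ) : ℤ) (i + 1)) (f (((2 * (t : ℕ) : ℕ) : ℤ) + 1) (i + 1)),
        dW (f (((2 * (t : ℕ) : ℕ) : ℤ) + 1) i),
        dN (f ((2 * (t : ℕ) : ℕ) : ℤ) i) (f (((2 * (t : ℕ) : ℕ) : ℤ) + 1) i)} := by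
    ext x
    simp only [mem_filter, mem_univ, true_and, mem_insert, mem_singleton]
    exact h1 x
  have r0 := fun j => H.flat.row (2 * (t : ℕ) : ℕ) j (by positivity) (by omega)
  have r1 := fun j => row_succ H (2 * (t : ℕ) : ℕ) j (by omega)
  have hi : i + 1 ≠ i := by
    intro h3
    have h4 : (1 : ZMod (3 * 2 ^ K)) = 0 := by
      have := add_left_cancel (a := i) (b := 1) (c := 0) (by rw [h3, add_zero])
      exact this
    have h5 : (1 : ℕ) < 3 * 2 ^ K := by
      have := Nat.one_le_two_pow (n := K)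
      omega
    haveI : Fact (1 < 3 * 2 ^ K) := ⟨h5⟩
    exact one_ne_zero h4
  have vE := hM.vE (f ((2 * (t : ℕ) : ℕ) : ℤ) i)
  have vU := hM.vU _ _ (upv (i + 1))
  have vW := hM.vW (f (((2 * (t : ℕ) : ℕ) : ℤ) + 1) i)
  rw [e_succ H (2 * (t : ℕ) : ℕ) i (by omega)] at vW
  have vN := hM.vN _ _ (upv i)
  have n1 : f ((2 * (t : ℕ) : ℕ) : ℤ) i ≠ f ((2 * (t : ℕ) : ℕ) : ℤ) (i + 1) := by
    intro h3
    exact hi (H.flat.inj _ _ _ (by positivity) (by omega) h3).symm
  have n2 : f (((2 * (t : ℕ) : ℕ) : ℤ) + 1) (i + 1) ≠ f (((2 * (t : ℕ) : ℕ) : ℤ) + 1) i := by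
    intro h3
    exact hi (inj_succ H (2 * (t : ℕ) : ℕ) _ _ (by omega) h3)
  have n3 : ∀ a b, f ((2 * (t : ℕ) : ℕ) : ℤ) a ≠ f (((2 * (t : ℕ) : ℕ) : ℤ) + 1) b := by
    intro a b h3
    have h4 := congrArg L.row h3
    rw [r0, r1] at h4
    omega
  rw [h2, card_insert_of_notMem, card_insert_of_notMem, card_insert_of_notMem, card_singleton]
  · simp only [mem_singleton]
    intro h3
    have := congrArg M.vt h3
    rw [vW, vN] at this
    exact n2 this
  · simp only [mem_insert, mem_singleton, not_or]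
    refine ⟨fun h3 => ?_, fun h3 => ?_⟩
    · have := congrArg M.vt h3
      rw [vU, vW] at this
      exact n3 _ _ this
    · have := congrArg M.vt h3
      rw [vU, vN] at this
      exact n3 _ _ this
  · simp only [mem_insert, mem_singleton, not_or]
    refine ⟨fun h3 => ?_, fun h3 => ?_, fun h3 => ?_⟩
    · have := congrArg M.vt h3
      rw [vE, vU] at this
      exact n1 this
    · have := congrArg M.vt h3
      rw [vE, vW] at this
      exact n3 _ _ this
    · have := congrArg M.vt h3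
      rw [vE, vN] at this
      exact n3 _ _ this

lemma card_T4 (hSt : StmtStrip) (hSq : StmtSq) (H : Host K h L f) (hM : LM L M dE dW dU dN) :
    Fintype.card {d : D // T4 M d} = 2 * (3 * 2 ^ K * (h + 1)) := by
  obtain ⟨m, hm⟩ := H.hodd
  have h1 : (univ.filter fun d => T4 M d) =
      (univ : Finset (Ix K m)).biUnion fun p =>
        univ.filter fun x => M.fc x = M.fc (sqd f dE p) := by
    ext d
    simp only [mem_filter, mem_univ, true_and, mem_biUnion]
    constructor
    · intro hd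
      exact sq_surj hSt hSq H hM hm d hd
    · rintro ⟨p, hp⟩
      exact T4_fc hSt H hM hp (sqd_T4 hSq H hM hm p)
  rw [Fintype.card_subtype, h1, card_biUnion, sum_congr rfl fun p _ => card_face hSq H hM hm p,
    sum_const, card_univ, Fintype.card_prod, Fintype.card_fin, ZMod.card, hm, smul_eq_mul]
  · ring
  · intro p _ q _ hpq
    change Disjoint (univ.filter fun x => M.fc x = M.fc (sqd f dE p))
      (univ.filter fun x => M.fc x = M.fc (sqd f dE q))
    rw [disjoint_left]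
    intro x hx hy
    simp only [mem_filter, mem_univ, true_and] at hx hy
    exact hpq (sq_inj hSq H hM hm p q (by rw [← hx, hy]))

end

/-- **CNT.** -/
theorem cnt (h1 : StmtStrip) (h2 : StmtSq) : StmtCnt := by
  intro K h V D E F _ _ _ _ L f M dE dW dU dN H hM
  have hV := card_V L h
  have hf := card_flat H
  have hc : (capV L h).card ≤ 2 * (3 * 2 ^ K) := H.cap
  refine ⟨by omega, by omega, card_up H, card_sq h1 h2 H hM, card_T4 h1 h2 H hM⟩

end Pool.Agent.Helper97.UB
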